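import Mathlib

/-!
# Shortest forced winning chain in Hex: a lower bound `n + ⌊n/6⌋`

The board of size `n` is the set of cells `(i,j)` with `1 ≤ i,j ≤ n`.  The first player (Black)
owns the rows `i = 1` and `i = n`, the second player (White) the columns `j = 1` and `j = n`.
White answers by a fixed pairing of the cells, periodic with period `6` in the rows and `3` in the
columns, in which every chain going straight down through six rows contains a whole pair.
-/

namespace Pool.Agent.Results.MP_c07608_co.ChainBound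

/-- A cell `(row, column)`. -/
abbrev Cell := ℤ × ℤ

/-- Adjacency: the difference of the two cells is one of
`(0,±1)`, `(±1,0)`, `(1,-1)`, `(-1,1)`. -/
def Adj (a b : Cell) : Prop :=
  (b.1 = a.1 ∧ (b.2 = a.2 + 1 ∨ b.2 = a.2 - 1)) ∨
  (b.1 = a.1 + 1 ∧ (b.2 = a.2 ∨ b.2 = a.2 - 1)) ∨
  (b.1 = a.1 - 1 ∧ (b.2 = a.2 ∨ b.2 = a.2 + 1))

/-- The `n × n` board. -/
noncomputable def board (n : ℕ) : Finset Cell := Finset.Icc (1 : ℤ) n ×ˢ Finset.Icc (1 : ℤ) n

/-- `l` is a chain (pairwise distinct cells, consecutive cells adjacent) of stones of `S` from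
row `1` to row `n`. -/
def BlackChain (n : ℕ) (S : Finset Cell) (l : List Cell) : Prop :=
  l.Nodup ∧ (∀ x ∈ l, x ∈ S) ∧ l.IsChain Adj ∧
    ∃ h : l ≠ [], (l.head h).1 = 1 ∧ (l.getLast h).1 = n

/-- `l` is a chain of stones of `S` from column `1` to column `n`. -/
def WhiteChain (n : ℕ) (S : Finset Cell) (l : List Cell) : Prop :=
  l.Nodup ∧ (∀ x ∈ l, x ∈ S) ∧ l.IsChain Adj ∧
    ∃ h : l ≠ [], (l.head h).2 = 1 ∧ (l.getLast h).2 = n

/-- Black's stones `S` contain a winning chain. -/
def BlackWon (n : ℕ) (S : Finset Cell) : Prop := ∃ l, BlackChain n S l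

/-- White's stones `S` contain a winning chain. -/
def WhiteWon (n : ℕ) (S : Finset Cell) : Prop := ∃ l, WhiteChain n S l

/-- `Forces n L B W`: Black, to move in the position with black stones `B` and white stones `W`
(in which nobody has won), can force a win such that, at the moment she wins, her stones contain
a winning chain of at most `L` cells.

* `win`: she places a stone on an empty cell `x` and then has a winning chain of at most `L` cells;
* `step`: she places a stone on an empty cell `x` which does not yet win (so the game goes on,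
  there being an empty cell for White), and whatever empty cell `y` White takes, White has
  not won by it and Black can force such a win from the new position. -/
inductive Forces (n L : ℕ) : Finset Cell → Finset Cell → Prop
  | win (B W : Finset Cell) (x : Cell) (hx : x ∈ board n \ (B ∪ W))
      (h : ∃ l, BlackChain n (insert x B) l ∧ l.length ≤ L) : Forces n L B W
  | step (B W : Finset Cell) (x : Cell) (hx : x ∈ board n \ (B ∪ W))
      (hnw : ¬ BlackWon n (insert x B))
      (hne : (board n \ (insert x B ∪ W)).Nonempty)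
      (hw : ∀ y ∈ board n \ (insert x B ∪ W), ¬ WhiteWon n (insert y W))
      (h : ∀ y ∈ board n \ (insert x B ∪ W), Forces n L (insert x B) (insert y W)) :
      Forces n L B W

/-- The offset from a cell to its partner; it depends only on the row modulo `6` and the column
modulo `3`.  The offset `(0,0)` means that the cell is unpaired. -/
def offT : Fin 6 → Fin 3 → ℤ × ℤ
  | 0, 0 => (2, -1)
  | 0, 1 => (1, -1)
  | 0, 2 => (1, 0)
  | 1, 0 => (-1, 1)
  | 1, 1 => (0, 0)
  | 1, 2 => (-1, 0)
  | 2, 0 => (1, -1)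
  | 2, 1 => (1, 0)
  | 2, 2 => (-2, 1)
  | 3, 0 => (2, -1)
  | 3, 1 => (-1, 0)
  | 3, 2 => (-1, 1)
  | 4, 0 => (1, 0)
  | 4, 1 => (0, 0)
  | 4, 2 => (1, -1)
  | 5, 0 => (-1, 0)
  | 5, 1 => (-1, 1)
  | 5, 2 => (-2, 1)

def rowc (a : Cell) : Fin 6 := ⟨((a.1 - 1) % 6).toNat, by omega⟩
def colc (a : Cell) : Fin 3 := ⟨(a.2 % 3).toNat, by omega⟩

def off (a : Cell) : ℤ × ℤ := offT (rowc a) (colc a)

def partner (a : Cell) : Cell := (a.1 + (off a).1, a.2 + (off a).2)

/-- A chain from row `≤ i` to row `≥ i+1` has two consecutive cells in rows `i` and `i+1`. -/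
lemma crossing (l : List Cell) (h : l ≠ []) (hc : l.IsChain Adj) (i : ℤ)
    (h1 : (l.head h).1 ≤ i) (h2 : i + 1 ≤ (l.getLast h).1) :
    ∃ u ∈ l, ∃ v ∈ l, u.1 = i ∧ v.1 = i + 1 ∧ Adj u v := by
  induction l with
  | nil => exact absurd rfl h
  | cons a t ih =>
    cases t with
    | nil =>
      simp only [List.head_cons, List.getLast_singleton] at h1 h2
      omega
    | cons b t =>
      rw [List.isChain_cons_cons] at hc
      simp only [List.head_cons] at h1
      rw [List.getLast_cons (by simp)] at h2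
      by_cases hb : b.1 ≤ i
      · obtain ⟨u, hu, v, hv, h3⟩ := ih (by simp) hc.2 (by simpa using hb) h2
        exact ⟨u, List.mem_cons_of_mem _ hu, v, List.mem_cons_of_mem _ hv, h3⟩
      · refine ⟨a, by simp, b, by simp, ?_, ?_, hc.1⟩ <;>
          (have := hc.1; unfold Adj at this; omega)


lemma off_shift (i j s m : ℤ) : off (i + 6 * s, j + 3 * m) = off (i, j) := by
  have h1 : rowc (i + 6 * s, j + 3 * m) = rowc (i, j) := by
    unfold rowc
    apply Fin.ext
    simp only
    omega
  have h2 : colc (i + 6 * s, j + 3 * m) = colc (i, j) := by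
    unfold colc
    apply Fin.ext
    simp only
    omega
  unfold off
  rw [h1, h2]

lemma invol_check : ∀ (t : Fin 6) (u : Fin 3),
    off ((t : ℤ) + 1 + (off ((t : ℤ) + 1, (u : ℤ))).1, (u : ℤ) + (off ((t : ℤ) + 1, (u : ℤ))).2) =
      (-(off ((t : ℤ) + 1, (u : ℤ))).1, -(off ((t : ℤ) + 1, (u : ℤ))).2) := by
  decide

lemma partner_partner (a : Cell) : partner (partner a) = a := by
  obtain ⟨i, j⟩ := a
  obtain ⟨s, t, hi⟩ : ∃ (s : ℤ) (t : Fin 6), i = (t : ℤ) + 1 + 6 * s :=
    ⟨(i - 1) / 6, ⟨((i - 1) % 6).toNat, by omega⟩, by simp only; omega⟩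
  obtain ⟨m, u, hj⟩ : ∃ (m : ℤ) (u : Fin 3), j = (u : ℤ) + 3 * m :=
    ⟨j / 3, ⟨(j % 3).toNat, by omega⟩, by simp only; omega⟩
  have h1 : off (i, j) = off ((t : ℤ) + 1, (u : ℤ)) := by rw [hi, hj, off_shift]
  have h2 := invol_check t u
  have h3 : off (partner (i, j)) = (-(off (i, j)).1, -(off (i, j)).2) := by
    unfold partner
    simp only
    rw [h1, ← h2, hi, hj]
    rw [← off_shift ((t : ℤ) + 1 + (off ((t : ℤ) + 1, (u : ℤ))).1)
      ((u : ℤ) + (off ((t : ℤ) + 1, (u : ℤ))).2) s m]
    congr 2 <;> ring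
  have h4 : partner (partner (i, j)) =
      ((partner (i, j)).1 + (off (partner (i, j))).1, (partner (i, j)).2 + (off (partner (i, j))).2) :=
    rfl
  rw [h4, h3]
  unfold partner
  simp

/-- Every chain going straight down through the six rows of a strip contains a whole pair. -/
lemma chain_check : ∀ (u : Fin 3) (d1 d2 d3 d4 d5 : Fin 2),
    off (1, (u : ℤ)) = (1, -(d1 : ℤ)) ∨
    off (1, (u : ℤ)) = (2, -(d1 : ℤ) - d2) ∨
    off (2, (u : ℤ) - d1) = (1, -(d2 : ℤ)) ∨
    off (2, (u : ℤ) - d1) = (2, -(d2 : ℤ) - d3) ∨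
    off (3, (u : ℤ) - d1 - d2) = (1, -(d3 : ℤ)) ∨
    off (3, (u : ℤ) - d1 - d2) = (2, -(d3 : ℤ) - d4) ∨
    off (4, (u : ℤ) - d1 - d2 - d3) = (1, -(d4 : ℤ)) ∨
    off (4, (u : ℤ) - d1 - d2 - d3) = (2, -(d4 : ℤ) - d5) ∨
    off (5, (u : ℤ) - d1 - d2 - d3 - d4) = (1, -(d5 : ℤ)) := by
  decide

/-- a cell on which Black will never have a stone -/
def Closed (n : ℕ) (W : Finset Cell) (z : Cell) : Prop := z ∈ W ∨ z ∉ board n

def Inv (n : ℕ) (B W : Finset Cell) : Prop :=
  (∀ b ∈ B, ¬ Closed n W b) ∧ ∀ b ∈ B, partner b = b ∨ Closed n W (partner b)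

lemma Closed.mono {n : ℕ} {W : Finset Cell} {z : Cell} (y : Cell) (h : Closed n W z) :
    Closed n (insert y W) z := by
  rcases h with h | h
  · exact Or.inl (Finset.mem_insert_of_mem h)
  · exact Or.inr h

lemma open_of_mem {n : ℕ} {B W : Finset Cell} {x : Cell} (hx : x ∈ board n \ (B ∪ W)) :
    ¬ Closed n W x := by
  rw [Finset.mem_sdiff, Finset.mem_union] at hx
  rintro (h | h)
  · exact hx.2 (Or.inr h)
  · exact h hx.1

lemma Inv.step {n : ℕ} {B W : Finset Cell} (hI : Inv n B W) {x : Cell}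
    (hx : x ∈ board n \ (B ∪ W)) (hne : (board n \ (insert x B ∪ W)).Nonempty) :
    ∃ y ∈ board n \ (insert x B ∪ W), Inv n (insert x B) (insert y W) := by
  have hxo := open_of_mem hx
  have main : ∀ y ∈ board n \ (insert x B ∪ W),
      (partner x = x ∨ Closed n (insert y W) (partner x)) →
      Inv n (insert x B) (insert y W) := by
    intro y hy hex
    rw [Finset.mem_sdiff, Finset.mem_union] at hy
    refine ⟨?_, ?_⟩
    · intro b hb hc
      have hbo : ¬ Closed n W b := by
        rcases Finset.mem_insert.1 hb with h | h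
        · rw [h]; exact hxo
        · exact hI.1 b h
      rcases hc with h | h
      · rcases Finset.mem_insert.1 h with h | h
        · exact hy.2 (Or.inl (h ▸ hb))
        · exact hbo (Or.inl h)
      · exact hbo (Or.inr h)
    · intro b hb
      rcases Finset.mem_insert.1 hb with h | h
      · rw [h]; exact hex
      · rcases hI.2 b h with h' | h'
        · exact Or.inl h'
        · exact Or.inr (h'.mono y)
  by_cases hp : partner x = x
  · obtain ⟨y, hy⟩ := hne
    exact ⟨y, hy, main y hy (Or.inl hp)⟩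
  · have hz : partner x ∉ insert x B := by
      intro h
      rcases Finset.mem_insert.1 h with h | h
      · exact hp h
      · rcases hI.2 _ h with h' | h'
        · rw [partner_partner] at h'
          exact hp h'.symm
        · rw [partner_partner] at h'
          exact hxo h'
    by_cases hzb : partner x ∈ board n \ (insert x B ∪ W)
    · exact ⟨_, hzb, main _ hzb (Or.inr (Or.inl (Finset.mem_insert_self _ _)))⟩
    · obtain ⟨y, hy⟩ := hne
      refine ⟨y, hy, main y hy (Or.inr ?_)⟩
      rw [Finset.mem_sdiff, Finset.mem_union] at hzb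
      by_cases hz1 : partner x ∈ board n
      · left
        have : partner x ∈ W := by
          by_contra hW
          exact hzb ⟨hz1, fun h' => h'.elim hz hW⟩
        exact Finset.mem_insert_of_mem this
      · exact Or.inr hz1

/-- After Black's move no whole pair is black. -/
lemma pair_free {n : ℕ} {B W : Finset Cell} (hI : Inv n B W) {x : Cell}
    (hx : x ∈ board n \ (B ∪ W)) {a : Cell} (ha : a ∈ insert x B)
    (hpa : partner a ∈ insert x B) : partner a = a := by
  have hxo := open_of_mem hx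
  have hopen : ∀ b ∈ insert x B, ¬ Closed n W b := by
    intro b hb
    rcases Finset.mem_insert.1 hb with h | h
    · rw [h]; exact hxo
    · exact hI.1 b h
  rcases Finset.mem_insert.1 ha with h | h
  · rcases Finset.mem_insert.1 hpa with h' | h'
    · rw [h', h]
    · rcases hI.2 _ h' with h2 | h2
      · rw [partner_partner] at h2
        exact h2.symm
      · rw [partner_partner] at h2
        exact absurd h2 (hopen a ha)
  · rcases hI.2 _ h with h2 | h2
    · exact h2
    · exact absurd h2 (hopen _ hpa)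

lemma down_step {a b : Cell} (h : Adj a b) (h1 : b.1 = a.1 + 1) :
    ∃ d : Fin 2, b.2 = a.2 - (d : ℤ) := by
  unfold Adj at h
  rcases h with ⟨h, -⟩ | ⟨-, h | h⟩ | ⟨h, -⟩
  · omega
  · exact ⟨0, by simp [h]⟩
  · exact ⟨1, by simp [h]⟩
  · omega

/-- six cells going straight down through a strip contain a pair -/
lemma pair_in_straight (s : ℤ) (b1 b2 b3 b4 b5 b6 : Cell)
    (r1 : b1.1 = 6 * s + 1) (r2 : b2.1 = 6 * s + 2) (r3 : b3.1 = 6 * s + 3)
    (r4 : b4.1 = 6 * s + 4) (r5 : b5.1 = 6 * s + 5) (r6 : b6.1 = 6 * s + 6)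
    (A12 : Adj b1 b2) (A23 : Adj b2 b3) (A34 : Adj b3 b4) (A45 : Adj b4 b5) (A56 : Adj b5 b6) :
    partner b1 = b2 ∨ partner b1 = b3 ∨ partner b2 = b3 ∨ partner b2 = b4 ∨ partner b3 = b4 ∨
      partner b3 = b5 ∨ partner b4 = b5 ∨ partner b4 = b6 ∨ partner b5 = b6 := by
  obtain ⟨d1, h1⟩ := down_step A12 (by omega)
  obtain ⟨d2, h2⟩ := down_step A23 (by omega)
  obtain ⟨d3, h3⟩ := down_step A34 (by omega)
  obtain ⟨d4, h4⟩ := down_step A45 (by omega)
  obtain ⟨d5, h5⟩ := down_step A56 (by omega)
  obtain ⟨m, u, hj⟩ : ∃ (m : ℤ) (u : Fin 3), b1.2 = (u : ℤ) + 3 * m :=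
    ⟨b1.2 / 3, ⟨(b1.2 % 3).toNat, by omega⟩, by simp only; omega⟩
  have o1 : off b1 = off (1, (u : ℤ)) := by
    rw [← off_shift 1 (u : ℤ) s m]
    congr 1
    exact Prod.ext (by simp only; omega) (by simp only; omega)
  have o2 : off b2 = off (2, (u : ℤ) - d1) := by
    rw [← off_shift 2 ((u : ℤ) - d1) s m]
    congr 1
    exact Prod.ext (by simp only; omega) (by simp only; omega)
  have o3 : off b3 = off (3, (u : ℤ) - d1 - d2) := by
    rw [← off_shift 3 ((u : ℤ) - d1 - d2) s m]
    congr 1
    exact Prod.ext (by simp only; omega) (by simp only; omega)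
  have o4 : off b4 = off (4, (u : ℤ) - d1 - d2 - d3) := by
    rw [← off_shift 4 ((u : ℤ) - d1 - d2 - d3) s m]
    congr 1
    exact Prod.ext (by simp only; omega) (by simp only; omega)
  have o5 : off b5 = off (5, (u : ℤ) - d1 - d2 - d3 - d4) := by
    rw [← off_shift 5 ((u : ℤ) - d1 - d2 - d3 - d4) s m]
    congr 1
    exact Prod.ext (by simp only; omega) (by simp only; omega)
  have hc := chain_check u d1 d2 d3 d4 d5
  rw [← o1, ← o2, ← o3, ← o4, ← o5] at hc
  clear o1 o2 o3 o4 o5 A12 A23 A34 A45 A56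
  have mk : ∀ (a b : Cell) (p q : ℤ), off a = (p, q) → b.1 = a.1 + p → b.2 = a.2 + q →
      partner a = b := by
    intro a b p q h h' h''
    unfold partner
    rw [h]
    exact Prod.ext h'.symm h''.symm
  rcases hc with h | h | h | h | h | h | h | h | h
  · exact Or.inl (mk _ _ _ _ h (by omega) (by omega))
  · exact Or.inr (Or.inl (mk _ _ _ _ h (by omega) (by omega)))
  · exact Or.inr (Or.inr (Or.inl (mk _ _ _ _ h (by omega) (by omega))))
  · exact Or.inr (Or.inr (Or.inr (Or.inl (mk _ _ _ _ h (by omega) (by omega)))))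
  · exact Or.inr (Or.inr (Or.inr (Or.inr (Or.inl (mk _ _ _ _ h (by omega) (by omega))))))
  · exact Or.inr (Or.inr (Or.inr (Or.inr (Or.inr (Or.inl (mk _ _ _ _ h (by omega) (by omega)))))))
  · exact Or.inr (Or.inr (Or.inr (Or.inr (Or.inr (Or.inr (Or.inl
      (mk _ _ _ _ h (by omega) (by omega))))))))
  · exact Or.inr (Or.inr (Or.inr (Or.inr (Or.inr (Or.inr (Or.inr (Or.inl
      (mk _ _ _ _ h (by omega) (by omega)))))))))
  · exact Or.inr (Or.inr (Or.inr (Or.inr (Or.inr (Or.inr (Or.inr (Or.inr
      (mk _ _ _ _ h (by omega) (by omega)))))))))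

def strip (a : Cell) : ℤ := (a.1 - 1) / 6

/-- A winning chain of Black uses at least seven cells of each full strip of six rows. -/
lemma seven_in_strip {n : ℕ} {l : List Cell} (hl : l ≠ [])
    (hpf : ∀ a ∈ l, partner a ∈ l → partner a = a)
    (hc : l.IsChain Adj) (h1 : (l.head hl).1 = 1) (h2 : (l.getLast hl).1 = n)
    (s : ℕ) (hs : 6 * s + 6 ≤ n) :
    7 ≤ (l.toFinset.filter (fun c => (strip c).toNat = s)).card := by
  classical
  set F := l.toFinset.filter (fun c => (strip c).toNat = s) with hF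
  have memF : ∀ c ∈ l, (6 * s + 1 ≤ c.1 ∧ c.1 ≤ 6 * s + 6) → c ∈ F := by
    intro c hcS hr
    rw [hF, Finset.mem_filter, List.mem_toFinset]
    refine ⟨hcS, ?_⟩
    unfold strip
    omega
  by_contra hlt
  push Not at hlt
  obtain ⟨b1, hb1, b2, hb2, r1, r2, A12⟩ := crossing l hl hc (6 * s + 1) (by omega) (by omega)
  obtain ⟨b2', hb2', b3, hb3, r2', r3, A23⟩ := crossing l hl hc (6 * s + 2) (by omega) (by omega)
  obtain ⟨b3', hb3', b4, hb4, r3', r4, A34⟩ := crossing l hl hc (6 * s + 3) (by omega) (by omega)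
  obtain ⟨b4', hb4', b5, hb5, r4', r5, A45⟩ := crossing l hl hc (6 * s + 4) (by omega) (by omega)
  obtain ⟨b5', hb5', b6, hb6, r5', r6, A56⟩ := crossing l hl hc (6 * s + 5) (by omega) (by omega)
  have f1 := memF b1 hb1 (by omega)
  have f2 := memF b2 hb2 (by omega)
  have f2' := memF b2' hb2' (by omega)
  have f3 := memF b3 hb3 (by omega)
  have f3' := memF b3' hb3' (by omega)
  have f4 := memF b4 hb4 (by omega)
  have f4' := memF b4' hb4' (by omega)
  have f5 := memF b5 hb5 (by omega)
  have f5' := memF b5' hb5' (by omega)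
  have f6 := memF b6 hb6 (by omega)
  have hinj : Set.InjOn Prod.fst (F : Set Cell) := by
    apply Finset.injOn_of_card_image_eq
    apply le_antisymm Finset.card_image_le
    have hsub : Finset.Icc (6 * (s : ℤ) + 1) (6 * (s : ℤ) + 6) ⊆ F.image Prod.fst := by
      intro r hr
      rw [Finset.mem_Icc] at hr
      have : r = 6 * (s : ℤ) + 1 ∨ r = 6 * s + 2 ∨ r = 6 * s + 3 ∨ r = 6 * s + 4 ∨
          r = 6 * s + 5 ∨ r = 6 * s + 6 := by omega
      rcases this with h | h | h | h | h | h
      · exact Finset.mem_image.2 ⟨b1, f1, by omega⟩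
      · exact Finset.mem_image.2 ⟨b2, f2, by omega⟩
      · exact Finset.mem_image.2 ⟨b3, f3, by omega⟩
      · exact Finset.mem_image.2 ⟨b4, f4, by omega⟩
      · exact Finset.mem_image.2 ⟨b5, f5, by omega⟩
      · exact Finset.mem_image.2 ⟨b6, f6, by omega⟩
    have h3 := Finset.card_le_card hsub
    rw [Int.card_Icc] at h3
    omega
  have e2 : b2' = b2 := hinj f2' f2 (by rw [r2, r2']; ring)
  have e3 : b3' = b3 := hinj f3' f3 (by rw [r3, r3']; ring)
  have e4 : b4' = b4 := hinj f4' f4 (by rw [r4, r4']; ring)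
  have e5 : b5' = b5 := hinj f5' f5 (by rw [r5, r5']; ring)
  subst e2 e3 e4 e5
  have hbad : ∀ a ∈ l, ∀ b ∈ l, a.1 < b.1 → partner a = b → False := by
    intro a ha b hb hab h
    have h' := hpf a ha (h ▸ hb)
    rw [h] at h'
    rw [h'] at hab
    omega
  rcases pair_in_straight s b1 b2' b3' b4' b5' b6 r1 r2' r3' r4' r5' (by omega)
    A12 A23 A34 A45 A56 with h | h | h | h | h | h | h | h | h
  · exact hbad _ hb1 _ hb2 (by omega) h
  · exact hbad _ hb1 _ hb3 (by omega) h
  · exact hbad _ hb2 _ hb3 (by omega) h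
  · exact hbad _ hb2 _ hb4 (by omega) h
  · exact hbad _ hb3 _ hb4 (by omega) h
  · exact hbad _ hb3 _ hb5 (by omega) h
  · exact hbad _ hb4 _ hb5 (by omega) h
  · exact hbad _ hb4 _ hb6 (by omega) h
  · exact hbad _ hb5 _ hb6 (by omega) h

lemma long_chain {n : ℕ} {B W : Finset Cell} (hI : Inv n B W) {x : Cell}
    (hx : x ∈ board n \ (B ∪ W)) {l : List Cell} (hw : BlackChain n (insert x B) l) :
    n + n / 6 ≤ l.length := by
  classical
  obtain ⟨-, hlS, hc, hl, h1, h2⟩ := hw
  have hxo := open_of_mem hx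
  have hopen : ∀ b ∈ insert x B, ¬ Closed n W b := by
    intro b hb
    rcases Finset.mem_insert.1 hb with h | h
    · rw [h]; exact hxo
    · exact hI.1 b h
  have hrow : ∀ b ∈ l, 1 ≤ b.1 ∧ b.1 ≤ n := by
    intro b hb
    have := hopen b (hlS b hb)
    have hb' : b ∈ board n := by
      by_contra h
      exact this (Or.inr h)
    unfold board at hb'
    rw [Finset.mem_product, Finset.mem_Icc] at hb'
    exact hb'.1
  have hpf : ∀ a ∈ l, partner a ∈ l → partner a = a := fun a ha hpa =>
    pair_free hI hx (hlS a ha) (hlS _ hpa)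
  have hcard := Finset.card_eq_sum_card_fiberwise (s := l.toFinset)
    (f := fun c : Cell => (strip c).toNat) (t := Finset.range (n / 6 + 1)) (by
      intro c hcS
      have := hrow c (List.mem_toFinset.1 hcS)
      simp only [Finset.coe_range, Set.mem_Iio]
      unfold strip
      omega)
  rw [Finset.sum_range_succ] at hcard
  have hA : 7 * (n / 6) ≤ ∑ s ∈ Finset.range (n / 6),
      (l.toFinset.filter (fun c => (strip c).toNat = s)).card := by
    calc 7 * (n / 6) = ∑ _s ∈ Finset.range (n / 6), 7 := by simp [mul_comm]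
      _ ≤ _ := Finset.sum_le_sum (fun s hs => by
        have := Finset.mem_range.1 hs
        exact seven_in_strip hl hpf hc h1 h2 s (by omega))
  have hrows : ∀ i : ℤ, 1 ≤ i → i ≤ n → ∃ c ∈ l, c.1 = i := by
    intro i hi1 hi2
    by_cases hin : i = n
    · exact ⟨l.getLast hl, List.getLast_mem hl, by rw [h2, hin]⟩
    · obtain ⟨u, hu, v, hv, hu1, -, -⟩ := crossing l hl hc i (by omega) (by omega)
      exact ⟨u, hu, hu1⟩
  have hLast : n % 6 ≤ (l.toFinset.filter (fun c => (strip c).toNat = n / 6)).card := by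
    have hsub : Finset.Icc (6 * ((n / 6 : ℕ) : ℤ) + 1) n ⊆
        (l.toFinset.filter (fun c => (strip c).toNat = n / 6)).image Prod.fst := by
      intro r hr
      rw [Finset.mem_Icc] at hr
      obtain ⟨c, hcS, hcr⟩ := hrows r (by omega) hr.2
      refine Finset.mem_image.2 ⟨c, ?_, hcr⟩
      rw [Finset.mem_filter, List.mem_toFinset]
      refine ⟨hcS, ?_⟩
      unfold strip
      omega
    have h3 := Finset.card_le_card hsub
    rw [Int.card_Icc] at h3
    have h4 := Finset.card_image_le (s := l.toFinset.filter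
      (fun c => (strip c).toNat = n / 6)) (f := Prod.fst)
    omega
  have := List.toFinset_card_le l
  omega

lemma not_forces (n L : ℕ) (hL : L < n + n / 6) (B W : Finset Cell) (hI : Inv n B W) :
    ¬ Forces n L B W := by
  intro h
  induction h with
  | win B W x hx h =>
    obtain ⟨l, hl, hlen⟩ := h
    have := long_chain hI hx hl
    omega
  | step B W x hx hnw hne hw h ih =>
    obtain ⟨y, hy, hI'⟩ := hI.step hx hne
    exact ih y hy hI'

/-- **Result.**  On the `n × n` Hex board Black (moving first) cannot force a win with a winning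
chain of fewer than `n + ⌊n/6⌋` cells: if she can force a win with her stones containing, at the
moment she wins, a winning chain of at most `L` cells, then `L ≥ n + ⌊n/6⌋`. -/
theorem result (n : ℕ) (_hn : 1 ≤ n) (L : ℕ) (h : Forces n L ∅ ∅) : n + n / 6 ≤ L := by
  by_contra hlt
  push Not at hlt
  refine not_forces n L hlt ∅ ∅ ⟨?_, ?_⟩ h
  · intro b hb
    exact absurd hb (Finset.notMem_empty b)
  · intro b hb
    exact absurd hb (Finset.notMem_empty b)

end Pool.Agent.Results.MP_c07608_co.ChainBound
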